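import Mathlib
set_option autoImplicit false
namespace Pool.Agent.H.MP_acb846_an
open Set Filter Topology

variable {E : Type} [NormedAddCommGroup E] [NormedSpace ℂ E] {X : Type} [LinearOrder X]

theorem alg (l : X → E →L[ℂ] ℂ) (u : X → E) (h0 : ∀ e d, d ≤ e → l e (u d) = 0)
    (h1 : ∀ e d, e < d → l e (u d) ≠ 0) (F : Finset X) (W : X → ℂ) (hW : ∀ e ∈ F, W e ≠ 0)
    (S : E →L[ℂ] E) (hS : ∀ g, S g = ∑ e ∈ F, (W e * l e g) • u e)
    (K : Submodule ℂ E) (hK : ∀ x ∈ K, S x ∈ K) (n : ℕ) :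
    ∀ b ∈ F, (F.filter (· < b)).card = n → ∀ y : X → ℂ, y b ≠ 0 → (∀ e ∈ F, b < e → y e = 0) →
      ∑ e ∈ F, y e • u e ∈ K → ∀ a ∈ F, a ≤ b → u a ∈ K := by
  induction n using Nat.strong_induction_on with
  | _ n ih =>
  intro b hb hn y hy hz hm
  have low : ∀ a ∈ F, a < b → u a ∈ K := by
    intro a ha hab
    have hne : (F.filter (· < b)).Nonempty := ⟨a, Finset.mem_filter.2 ⟨ha, hab⟩⟩
    set c := (F.filter (· < b)).max' hne with hc
    have hcm := Finset.mem_filter.1 ((F.filter (· < b)).max'_mem hne)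
    have hle : ∀ e ∈ F, e < b → e ≤ c := fun e he heb =>
      Finset.le_max' _ e (Finset.mem_filter.2 ⟨he, heb⟩)
    have hlt : (F.filter (· < c)).card < n := by
      rw [← hn]
      refine Finset.card_lt_card ⟨fun x hx => ?_, fun h => ?_⟩
      · rw [Finset.mem_filter] at hx ⊢
        exact ⟨hx.1, hx.2.trans hcm.2⟩
      · exact lt_irrefl _ (Finset.mem_filter.1 (h (Finset.mem_filter.2 hcm))).2
    refine ih _ hlt c hcm.1 rfl (fun e => W e * l e (∑ e ∈ F, y e • u e)) ?_ ?_ ?_ a ha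
      (hle a ha hab)
    · refine mul_ne_zero (hW c hcm.1) ?_
      rw [map_sum, Finset.sum_eq_single b]
      · rw [map_smul, smul_eq_mul]
        exact mul_ne_zero hy (h1 _ _ hcm.2)
      · intro e he heb
        rw [map_smul, smul_eq_mul]
        rcases lt_or_gt_of_ne heb with h | h
        · rw [h0 _ _ (hle e he h), mul_zero]
        · rw [hz e he h, zero_mul]
      · intro h
        exact (h hb).elim
    · intro e he hce
      have hbe : b ≤ e := by
        by_contra h
        exact absurd (hle e he (not_le.1 h)) (not_le.2 hce)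
      rw [map_sum, Finset.sum_eq_zero, mul_zero]
      intro d hd
      rw [map_smul, smul_eq_mul]
      rcases le_or_gt d b with h | h
      · rw [h0 _ _ (h.trans hbe), mul_zero]
      · rw [hz d hd h, zero_mul]
    · rw [← hS]
      exact hK _ hm
  intro a ha hab
  rcases hab.lt_or_eq with h | rfl
  · exact low a ha h
  have h2 : ∑ e ∈ F.erase a, y e • u e ∈ K := by
    refine K.sum_mem fun e he => ?_
    rw [Finset.mem_erase] at he
    rcases lt_or_gt_of_ne he.1 with h | h
    · exact K.smul_mem _ (low e he.2 h)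
    · rw [hz e he.2 h, zero_smul]
      exact K.zero_mem
  rw [← Finset.add_sum_erase F _ ha] at hm
  have h3 := K.sub_mem hm h2
  rw [add_sub_cancel_right] at h3
  have h4 := K.smul_mem (y a)⁻¹ h3
  rwa [smul_smul, inv_mul_cancel₀ hy, one_smul] at h4

def Q (l : X → E →L[ℂ] ℂ) (u : X → E) (F : Finset X) (η : ℝ) (T : E →L[ℂ] E) : Prop :=
  ∀ g, ‖g‖ ≤ 1 → ∀ a ∈ F, η ≤ ‖l a g‖ → ∀ M : Submodule ℂ E, (∀ x ∈ M, T x ∈ M) → g ∈ M →
    ∃ z ∈ M, ‖z - u a‖ < η

theorem pert (l : X → E →L[ℂ] ℂ) (u : X → E) (h0 : ∀ e d, d ≤ e → l e (u d) = 0)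
    (h1 : ∀ e d, e < d → l e (u d) ≠ 0) (F : Finset X) (W : X → ℂ) (hW : ∀ e ∈ F, W e ≠ 0)
    (S : E →L[ℂ] E) (hS : ∀ g, S g = ∑ e ∈ F, (W e * l e g) • u e) (η : ℝ) (hη : 0 < η) :
    ∃ δ > 0, ∀ T : E →L[ℂ] E, ‖T - S‖ ≤ δ → Q l u F η T := by
  classical
  have key : ∀ a ∈ F, ∀ᶠ p : (E →L[ℂ] E) × E in 𝓝 (S, 0),
      ∀ y ∈ (Set.pi univ fun e => Metric.closedBall (0 : ℂ) ‖l e‖) ∩ {y : X → ℂ | η ≤ ‖y a‖},
      ∃ c : ℕ →₀ ℂ, ‖(c.sum fun i t => t • (p.1 ^ i) (∑ e ∈ F, (W e * y e) • u e + p.2)) - u a‖ < η := by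
    intro a ha
    refine IsCompact.eventually_forall_of_forall_eventually
      ((isCompact_univ_pi fun e => isCompact_closedBall _ _).inter_right
        (isClosed_le continuous_const (by fun_prop))) ?_
    intro y hy
    have hya : y a ≠ 0 := by
      intro h
      have := hy.2
      rw [mem_setOf_eq, h, norm_zero] at this
      linarith
    have hne : (F.filter (fun e => y e ≠ 0)).Nonempty := ⟨a, Finset.mem_filter.2 ⟨ha, hya⟩⟩
    have hbm := Finset.mem_filter.1 ((F.filter (fun e => y e ≠ 0)).max'_mem hne)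
    have hmem := alg l u h0 h1 F W hW S hS
      (Submodule.span ℂ (range fun i : ℕ => (S ^ i) (∑ e ∈ F, (W e * y e) • u e))) ?_ _ _ hbm.1 rfl
      (fun e => W e * y e) (mul_ne_zero (hW _ hbm.1) hbm.2) ?_
      (Submodule.subset_span ⟨0, by simp⟩) a ha
      (Finset.le_max' _ a (Finset.mem_filter.2 ⟨ha, hya⟩))
    · obtain ⟨c, hc⟩ := Finsupp.mem_span_range_iff_exists_finsupp.1 hmem
      have hcont : Continuous fun z : ((E →L[ℂ] E) × E) × (X → ℂ) =>
          ‖(c.sum fun i t => t • (z.1.1 ^ i) (∑ e ∈ F, (W e * z.2 e) • u e + z.1.2)) - u a‖ := by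
        unfold Finsupp.sum
        fun_prop
      have := hcont.continuousAt (x := ((S, 0), y)).eventually_lt continuousAt_const
        (show _ < η by simp only [add_zero]; rw [hc]; simpa using hη)
      exact this.mono fun z hz => ⟨c, hz⟩
    · intro x hx
      induction hx using Submodule.span_induction with
      | mem x hx =>
        obtain ⟨i, rfl⟩ := hx
        exact Submodule.subset_span ⟨i + 1, by simp [pow_succ']⟩
      | zero => simp
      | add x y _ _ hx hy =>
        rw [map_add]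
        exact Submodule.add_mem _ hx hy
      | smul a x _ hx =>
        rw [map_smul]
        exact Submodule.smul_mem _ _ hx
    · intro e he hlt
      by_contra h
      have : y e ≠ 0 := fun h' => h (by rw [h', mul_zero])
      exact absurd (Finset.le_max' _ e (Finset.mem_filter.2 ⟨he, this⟩)) (not_le.2 hlt)
  have key2 := (Finset.eventually_all F).2 key
  obtain ⟨ε, hε, hb⟩ := Metric.eventually_nhds_iff.1 key2
  refine ⟨ε / 2, by positivity, fun T hT g hg a ha hl M hM hgM => ?_⟩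
  have hd : dist (T, (T - S) g) (S, (0 : E)) < ε := by
    rw [Prod.dist_eq, max_lt_iff, dist_eq_norm, dist_zero_right]
    refine ⟨by linarith, ?_⟩
    calc ‖(T - S) g‖ ≤ ‖T - S‖ * ‖g‖ := (T - S).le_opNorm g
      _ ≤ ε / 2 * 1 := by gcongr
      _ < ε := by linarith
  obtain ⟨c, hc⟩ := hb hd a ha (fun e => l e g) ⟨fun e _ => by
    rw [mem_closedBall_zero_iff]
    calc ‖l e g‖ ≤ ‖l e‖ * ‖g‖ := (l e).le_opNorm g
      _ ≤ ‖l e‖ * 1 := by gcongr
      _ = _ := mul_one _, hl⟩
  refine ⟨_, ?_, hc⟩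
  refine M.sum_mem fun i hi => M.smul_mem _ ?_
  clear hi
  rw [← hS]
  have e1 : S g + (T - S) g = T g := by simp
  simp only
  rw [e1]
  induction i with
  | zero => simpa using hM g hgM
  | succ i ih =>
    rw [pow_succ']
    exact hM _ ih

noncomputable def Dl (l : X → E →L[ℂ] ℂ) (u : X → E) (F : Finset X) (η : ℝ) (S : E →L[ℂ] E) : ℝ := by
  classical
  exact if h : ∃ δ > 0, ∀ T : E →L[ℂ] E, ‖T - S‖ ≤ δ → Q l u F η T then h.choose else 1

theorem Dl_pos (l : X → E →L[ℂ] ℂ) (u : X → E) (F : Finset X) (η : ℝ) (S : E →L[ℂ] E) :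
    0 < Dl l u F η S := by
  unfold Dl
  split_ifs with h
  · exact h.choose_spec.1
  · exact one_pos

theorem Dl_spec (l : X → E →L[ℂ] ℂ) (u : X → E) (F : Finset X) (η : ℝ) (S : E →L[ℂ] E)
    (h : ∃ δ > 0, ∀ T : E →L[ℂ] E, ‖T - S‖ ≤ δ → Q l u F η T) (T : E →L[ℂ] E)
    (hT : ‖T - S‖ ≤ Dl l u F η S) : Q l u F η T := by
  unfold Dl at hT
  rw [dif_pos h] at hT
  exact h.choose_spec.2 T hT

noncomputable def sq (l : X → E →L[ℂ] ℂ) (u : X → E) (d : ℕ → X) : ℕ → (E →L[ℂ] E) × ℝ
  | 0 => (0, 1)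
  | k + 1 =>
    let m := min (sq l u d k).2
      (Dl l u ((Finset.range k).image d) (1 / ((k : ℝ) + 1)) (sq l u d k).1) / 2
    ((sq l u d k).1 + ((m / (‖(l (d k)).smulRight (u (d k))‖ + 1) : ℝ) : ℂ) •
      (l (d k)).smulRight (u (d k)), m)

theorem exT [CompleteSpace E] (l : X → E →L[ℂ] ℂ) (u : X → E) (h0 : ∀ e d, d ≤ e → l e (u d) = 0)
    (h1 : ∀ e d, e < d → l e (u d) ≠ 0) (d : ℕ → X) :
    ∃ T : E →L[ℂ] E,
      (∀ N : Submodule ℂ E, IsClosed (N : Set E) → (∀ k, ∀ x ∈ N, l (d k) x • u (d k) ∈ N) →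
        ∀ x ∈ N, T x ∈ N) ∧
      ∀ M : Submodule ℂ E, IsClosed (M : Set E) → (∀ x ∈ M, T x ∈ M) →
        ∀ f ∈ M, ∀ k, l (d k) f ≠ 0 → u (d k) ∈ M := by
  set S : ℕ → E →L[ℂ] E := fun k => (sq l u d k).1 with hSdef
  set m : ℕ → ℝ := fun k => (sq l u d k).2 with hmdef
  set R : ℕ → E →L[ℂ] E := fun k => (l (d k)).smulRight (u (d k)) with hR
  set w : ℕ → ℝ := fun k => m (k + 1) / (‖R k‖ + 1) with hw
  have hm1 : ∀ k, m (k + 1) = min (m k)
      (Dl l u ((Finset.range k).image d) (1 / ((k : ℝ) + 1)) (S k)) / 2 := fun k => rfl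
  have hS1 : ∀ k, S (k + 1) = S k + (w k : ℂ) • R k := fun k => rfl
  have hmp : ∀ k, 0 < m k := by
    intro k
    induction k with
    | zero => exact one_pos
    | succ k ih =>
      rw [hm1]
      have := lt_min ih (Dl_pos l u ((Finset.range k).image d) (1 / ((k : ℝ) + 1)) (S k))
      linarith
  have hm2 : ∀ k, 2 * m (k + 1) ≤ m k := by
    intro k
    rw [hm1]
    have := min_le_left (m k) (Dl l u ((Finset.range k).image d) (1 / ((k : ℝ) + 1)) (S k))
    linarith
  have hm3 : ∀ k, 2 * m (k + 1) ≤ Dl l u ((Finset.range k).image d) (1 / ((k : ℝ) + 1)) (S k) := by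
    intro k
    rw [hm1]
    have := min_le_right (m k) (Dl l u ((Finset.range k).image d) (1 / ((k : ℝ) + 1)) (S k))
    linarith
  have hwp : ∀ k, 0 < w k := fun k => div_pos (hmp _) (by positivity)
  have hst : ∀ k, ‖S (k + 1) - S k‖ ≤ m (k + 1) := by
    intro k
    rw [hS1, add_sub_cancel_left, norm_smul, Complex.norm_real, Real.norm_of_nonneg (hwp k).le, hw]
    simp only
    rw [div_mul_eq_mul_div, div_le_iff₀ (by positivity)]
    have := hmp (k + 1)
    nlinarith
  have hmg : ∀ k, m k ≤ 1 / 2 ^ k := by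
    intro k
    induction k with
    | zero => simp [hmdef, sq]
    | succ k ih =>
      have := hm2 k
      rw [pow_succ, ← div_div]
      linarith
  have hcau : CauchySeq S := by
    refine cauchySeq_of_le_geometric_two (C := 1) fun k => ?_
    rw [dist_comm, dist_eq_norm]
    refine (hst k).trans ((hmg _).trans (le_of_eq ?_))
    rw [pow_succ, div_div, mul_comm]
  obtain ⟨T, hT⟩ := cauchySeq_tendsto_of_complete hcau
  have htail : ∀ k n, ‖S (k + n) - S k‖ ≤ 2 * m (k + 1) - 2 * m (k + n + 1) := by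
    intro k n
    induction n with
    | zero => simp
    | succ n ih =>
      have h2 := hst (k + n)
      have h3 := hm2 (k + n + 1)
      have h4 := norm_sub_le_norm_sub_add_norm_sub (S (k + n + 1)) (S (k + n)) (S k)
      rw [← add_assoc]
      linarith
  have hTS : ∀ k, ‖T - S k‖ ≤ 2 * m (k + 1) := by
    intro k
    have h2 : Tendsto (fun n => ‖S (n + k) - S k‖) atTop (𝓝 ‖T - S k‖) :=
      (((tendsto_add_atTop_iff_nat k).2 hT).sub_const _).norm
    refine le_of_tendsto' h2 fun n => ?_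
    have := htail k n
    have h3 := hmp (k + n + 1)
    rw [add_comm n k]
    linarith
  have hSsum : ∀ k g, S k g = ∑ j ∈ Finset.range k, ((w j : ℂ) * l (d j) g) • u (d j) := by
    intro k g
    induction k with
    | zero => simp [hSdef, sq]
    | succ k ih =>
      rw [hS1, Finset.sum_range_succ, ← ih]
      simp [hR, mul_smul]
  have hQ : ∀ k, Q l u ((Finset.range k).image d) (1 / ((k : ℝ) + 1)) T := by
    intro k
    refine Dl_spec l u _ _ (S k) ?_ T ((hTS k).trans (hm3 k))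
    refine pert l u h0 h1 _
      (fun e => ((∑ j ∈ (Finset.range k).filter (fun j => d j = e), w j : ℝ) : ℂ)) ?_ _ ?_ _
      (by positivity)
    · intro e he
      obtain ⟨j, hj, rfl⟩ := Finset.mem_image.1 he
      refine Complex.ofReal_ne_zero.2 (ne_of_gt (Finset.sum_pos (fun i _ => hwp i) ⟨j, ?_⟩))
      exact Finset.mem_filter.2 ⟨hj, rfl⟩
    · intro g
      rw [hSsum, ← Finset.sum_fiberwise_of_maps_to (g := d) (t := (Finset.range k).image d)
        (fun j hj => Finset.mem_image_of_mem d hj)]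
      refine Finset.sum_congr rfl fun e _ => ?_
      rw [Complex.ofReal_sum, Finset.sum_mul, Finset.sum_smul]
      refine Finset.sum_congr rfl fun j hj => ?_
      rw [(Finset.mem_filter.1 hj).2]
  refine ⟨T, fun N hN hinv x hx => ?_, fun M hM hinv f hf k hk => ?_⟩
  · have h2 : Tendsto (fun k => S k x) atTop (𝓝 (T x)) :=
      ((ContinuousLinearMap.apply ℂ E x).continuous.tendsto T).comp hT
    refine hN.mem_of_tendsto h2 (Eventually.of_forall fun k => ?_)
    rw [hSsum]
    refine N.sum_mem fun j _ => ?_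
    rw [mul_smul]
    exact N.smul_mem _ (hinv j x hx)
  · have hf0 : 0 < ‖f‖ := by
      rw [norm_pos_iff]
      rintro rfl
      exact hk (map_zero _)
    set g : E := ((‖f‖⁻¹ : ℝ) : ℂ) • f with hg
    have hg1 : ‖g‖ ≤ 1 := by
      rw [hg, norm_smul, Complex.norm_real, norm_inv, norm_norm, inv_mul_cancel₀ hf0.ne']
    have hg2 : 0 < ‖l (d k) g‖ := by
      rw [norm_pos_iff, hg, map_smul]
      exact smul_ne_zero (Complex.ofReal_ne_zero.2 (inv_pos.2 hf0).ne') hk
    have : u (d k) ∈ closure (M : Set E) := by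
      rw [Metric.mem_closure_iff]
      intro ε hε
      obtain ⟨n, hn⟩ := exists_nat_one_div_lt (lt_min hε hg2)
      have hle : 1 / (((n + k + 1 : ℕ) : ℝ) + 1) ≤ 1 / ((n : ℝ) + 1) := by
        gcongr
        omega
      rw [lt_min_iff] at hn
      obtain ⟨z, hz, hd⟩ := hQ (n + k + 1) g hg1 (d k)
        (Finset.mem_image_of_mem d (Finset.mem_range.2 (by omega))) (by linarith) M hinv
        (M.smul_mem _ hf)
      exact ⟨z, hz, by rw [dist_comm, dist_eq_norm]; linarith⟩
    rwa [hM.closure_eq] at this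

end Pool.Agent.H.MP_acb846_an
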