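import Pool.Agent.H.MP_acb846_an.A
set_option autoImplicit false
namespace Pool.Agent.H.MP_acb846_an
open Set Filter Topology

noncomputable abbrev HQ := lp (fun _ : ℚ => ℂ) 2

noncomputable def cq (s : ℚ) : ℝ := (1 / 2) ^ (Encodable.encode s)

theorem cq_pos (s : ℚ) : 0 < cq s := by unfold cq; positivity

theorem cq_le (s : ℚ) : cq s ≤ 1 := pow_le_one₀ (by norm_num) (by norm_num)

theorem cq_sum : Summable cq :=
  summable_geometric_two.comp_injective Encodable.encode_injective

noncomputable def wq (e : ℚ) : HQ := ⟨fun s => if e < s then (cq s : ℂ) else 0, by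
  refine memℓp_gen (cq_sum.of_nonneg_of_le (fun s => by positivity) fun s => ?_)
  have h1 := cq_pos s
  have h2 := cq_le s
  split_ifs
  · rw [Complex.norm_real, Real.norm_of_nonneg h1.le]
    simp only [ENNReal.toReal_ofNat, Real.rpow_ofNat]
    nlinarith
  · simp [h1.le]⟩

theorem wq_in (e : ℚ) (f : HQ) :
    inner ℂ (wq e) f = ∑' s, (if e < s then (cq s : ℂ) * f s else 0) := by
  rw [lp.inner_eq_tsum]
  refine tsum_congr fun s => ?_
  have : (wq e) s = if e < s then (cq s : ℂ) else 0 := rfl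
  rw [this]
  split_ifs
  · simp [mul_comm]
  · simp

theorem wq_single (e d : ℚ) :
    inner ℂ (wq e) (lp.single 2 d (1 : ℂ) : HQ) = if e < d then (cq d : ℂ) else 0 := by
  rw [lp.inner_single_right]
  have : (wq e) d = if e < d then (cq d : ℂ) else 0 := rfl
  rw [this]
  split_ifs <;> simp

theorem detect (f : HQ) (s x : ℚ) (hsx : s < x) (h : ∀ a, s ≤ a → inner ℂ (wq a) f = 0) :
    f x = 0 := by
  have hb : ∀ (P : Prop) [Decidable P] (t : ℚ), ‖(if P then (cq t : ℂ) * f t else 0)‖ ≤ cq t * ‖f‖ := by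
    intro P _ t
    have h1 := cq_pos t
    split_ifs
    · rw [norm_mul, Complex.norm_real, Real.norm_of_nonneg h1.le]
      gcongr
      exact lp.norm_apply_le_norm (by norm_num) f t
    · simp; positivity
  have h1 : Tendsto (fun n : ℕ => ∑' t, (if x - (x - s) / ((n : ℚ) + 1) < t then (cq t : ℂ) * f t else 0))
      atTop (𝓝 (∑' t, (if x ≤ t then (cq t : ℂ) * f t else 0))) := by
    refine tendsto_tsum_of_dominated_convergence (cq_sum.mul_right ‖f‖) (fun t => ?_)
      (Eventually.of_forall fun n t => hb _ t)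
    refine tendsto_const_nhds.congr' ?_
    by_cases hxt : x ≤ t
    · refine Eventually.of_forall fun n => ?_
      have : 0 < (x - s) / ((n : ℚ) + 1) := div_pos (by linarith) (by positivity)
      simp only
      rw [if_pos hxt, if_pos (by linarith)]
    · obtain ⟨N, hN⟩ := exists_nat_gt ((x - s) / (x - t))
      push Not at hxt
      filter_upwards [eventually_ge_atTop N] with n hn
      have h2 : (N : ℚ) ≤ n := by exact_mod_cast hn
      have h3 : (x - s) / ((n : ℚ) + 1) ≤ x - t := by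
        rw [div_le_iff₀ (by positivity)]
        rw [div_lt_iff₀ (by linarith)] at hN
        nlinarith
      rw [if_neg (by linarith), if_neg (by linarith)]
  have h2 : ∑' t, (if x ≤ t then (cq t : ℂ) * f t else 0) = 0 := by
    refine tendsto_nhds_unique h1 (tendsto_const_nhds.congr fun n => ?_)
    rw [← wq_in, h]
    have : (x - s) / ((n : ℚ) + 1) ≤ x - s := div_le_self (by linarith) (by
      have : (0 : ℚ) ≤ n := by positivity
      linarith)
    linarith
  have h3 := h x hsx.le
  rw [wq_in] at h3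
  have hs : Summable fun t => (if x ≤ t then (cq t : ℂ) * f t else 0) :=
    Summable.of_norm_bounded (cq_sum.mul_right ‖f‖) fun t => hb _ t
  rw [hs.tsum_eq_add_tsum_ite x] at h2
  have h4 : ∑' t, (if t = x then 0 else (if x ≤ t then (cq t : ℂ) * f t else 0)) =
      ∑' t, (if x < t then (cq t : ℂ) * f t else 0) := by
    refine tsum_congr fun t => ?_
    rcases lt_trichotomy t x with h | h | h
    · rw [if_neg h.ne, if_neg (not_le.2 h), if_neg (not_lt.2 h.le)]
    · rw [if_pos h, if_neg (by rw [h]; exact lt_irrefl _)]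
    · rw [if_neg h.ne', if_pos h.le, if_pos h]
  rw [h4, h3, add_zero, if_pos le_rfl] at h2
  exact (mul_eq_zero.1 h2).resolve_left (Complex.ofReal_ne_zero.2 (cq_pos x).ne')

theorem memof (M : Submodule ℂ HQ) (hM : IsClosed (M : Set HQ)) (g : HQ)
    (h : ∀ s, g s ≠ 0 → (lp.single 2 s (1 : ℂ) : HQ) ∈ M) : g ∈ M := by
  refine hM.mem_of_tendsto (lp.hasSum_single (by norm_num) g) (Eventually.of_forall fun F => ?_)
  refine M.sum_mem fun s _ => ?_
  by_cases hs : g s = 0
  · rw [hs]; simp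
  · have := M.smul_mem (g s) (h s hs)
    rwa [← lp.single_smul, smul_eq_mul, mul_one] at this

theorem mainQ : ∃ T : HQ →L[ℂ] HQ, ∀ M : Submodule ℂ HQ,
    (IsClosed (M : Set HQ) ∧ ∀ x ∈ M, T x ∈ M) ↔
      (M = ⊥ ∨ M = ⊤ ∨ ∃ t : ℝ,
        (∀ f : HQ, f ∈ M ↔ ∀ q : ℚ, t < (q : ℝ) → f q = 0) ∨
        (∀ f : HQ, f ∈ M ↔ ∀ q : ℚ, t ≤ (q : ℝ) → f q = 0)) := by
  obtain ⟨d, hd⟩ := exists_surjective_nat ℚ
  have h1 : ∀ e d : ℚ, e < d → innerSL ℂ (wq e) (lp.single 2 d (1 : ℂ) : HQ) ≠ 0 := by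
    intro e d h
    rw [innerSL_apply_apply, wq_single, if_pos h]
    exact Complex.ofReal_ne_zero.2 (cq_pos d).ne'
  obtain ⟨T, hT1, hT2⟩ := exT (fun e => innerSL ℂ (wq e)) (fun q => (lp.single 2 q (1 : ℂ) : HQ))
    (fun e d h => by rw [innerSL_apply_apply, wq_single, if_neg (not_lt.2 h)]) h1 d
  refine ⟨T, fun M => ⟨fun hM => ?_, fun hM => ?_⟩⟩
  · have k1 : ∀ f ∈ M, ∀ a, inner ℂ (wq a) f ≠ 0 → (lp.single 2 a (1 : ℂ) : HQ) ∈ M := by
      intro f hf a ha
      obtain ⟨k, rfl⟩ := hd a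
      exact hT2 M hM.1 hM.2 f hf k ha
    have k2 : ∀ s a : ℚ, s ≤ a → (lp.single 2 a (1 : ℂ) : HQ) ∈ M →
        (lp.single 2 s (1 : ℂ) : HQ) ∈ M := by
      intro s a hsa ha
      rcases hsa.lt_or_eq with h | rfl
      · exact k1 _ ha s (h1 s a h)
      · exact ha
    have k3 : ∀ f ∈ M, ∀ x, f x ≠ 0 → ∀ s < x, (lp.single 2 s (1 : ℂ) : HQ) ∈ M := by
      intro f hf x hx s hs
      by_contra hcon
      refine hx (detect f s x hs fun a ha => ?_)
      by_contra h
      exact hcon (k2 s a ha (k1 f hf a h))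
    set A : Set ℝ := (fun q : ℚ => (q : ℝ)) '' {q | (lp.single 2 q (1 : ℂ) : HQ) ∈ M} with hA
    by_cases hne : A.Nonempty
    swap
    · left
      rw [eq_bot_iff]
      intro f hf
      rw [Submodule.mem_bot]
      refine lp.ext (funext fun x => ?_)
      by_contra h
      exact hne ⟨_, x - 1, k3 f hf x h _ (by linarith), rfl⟩
    right
    by_cases hbd : BddAbove A
    swap
    · left
      rw [eq_top_iff]
      intro f _
      refine memof M hM.1 f fun s _ => ?_
      obtain ⟨_, ⟨a, ha, rfl⟩, hlt⟩ := not_bddAbove_iff.1 hbd (s : ℝ)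
      exact k2 s a (Rat.cast_le.1 hlt.le) ha
    right
    refine ⟨sSup A, ?_⟩
    have k4 : ∀ f ∈ M, ∀ q : ℚ, sSup A < (q : ℝ) → f q = 0 := by
      intro f hf q hq
      by_contra h
      obtain ⟨s, hs1, hs2⟩ := exists_rat_btwn hq
      have := le_csSup hbd ⟨s, k3 f hf q h s (by exact_mod_cast hs2), rfl⟩
      exact absurd hs1 (not_lt.2 this)
    have k5 : ∀ q : ℚ, (q : ℝ) < sSup A → (lp.single 2 q (1 : ℂ) : HQ) ∈ M := by
      intro q hq
      obtain ⟨_, ⟨a, ha, rfl⟩, hlt⟩ := exists_lt_of_lt_csSup hne hq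
      exact k2 q a (Rat.cast_le.1 hlt.le) ha
    have k6 : ∀ f : HQ, (∀ q : ℚ, sSup A ≤ (q : ℝ) → f q = 0) → f ∈ M := fun f hf =>
      memof M hM.1 f fun s hs => k5 s (not_le.1 fun h => hs (hf s h))
    by_cases hc : ∃ f ∈ M, ∃ q : ℚ, (q : ℝ) = sSup A ∧ f q ≠ 0
    · left
      obtain ⟨g, hg, q, hq, hgq⟩ := hc
      have k7 : (lp.single 2 q (1 : ℂ) : HQ) ∈ M := by
        have h2 : g - g q • (lp.single 2 q (1 : ℂ) : HQ) ∈ M := by
          refine k6 _ fun s hs => ?_
          rw [lp.coeFn_sub, Pi.sub_apply, lp.coeFn_smul, Pi.smul_apply]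
          by_cases hsq : s = q
          · subst hsq
            simp
          · rw [lp.single_apply_ne _ _ _ hsq, smul_zero, sub_zero]
            refine k4 g hg s (lt_of_le_of_ne hs fun h => hsq ?_)
            rw [← hq] at h
            exact_mod_cast h.symm
        have h3 := M.smul_mem (g q)⁻¹ (M.sub_mem hg h2)
        rwa [sub_sub_cancel, smul_smul, inv_mul_cancel₀ hgq, one_smul] at h3
      refine fun f => ⟨k4 f, fun hf => memof M hM.1 f fun s hs => ?_⟩
      refine k2 s q ?_ k7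
      have : (s : ℝ) ≤ q := by
        rw [hq]
        exact not_lt.1 fun h => hs (hf s h)
      exact_mod_cast this
    · right
      refine fun f => ⟨fun hf q hq => ?_, k6 f⟩
      rcases hq.lt_or_eq with h | h
      · exact k4 f hf q h
      · by_contra h2
        exact hc ⟨f, hf, q, h.symm, h2⟩
  · have key : ∀ P : ℚ → Prop, (∀ a b, a < b → P a → P b) →
        (∀ f : HQ, f ∈ M ↔ ∀ q, P q → f q = 0) → IsClosed (M : Set HQ) ∧ ∀ x ∈ M, T x ∈ M := by
      intro P hP h
      have hc : IsClosed (M : Set HQ) := by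
        have : (M : Set HQ) = ⋂ q, ⋂ (_ : P q), {f | lp.evalCLM ℂ (fun _ : ℚ => ℂ) 2 q f = 0} := by
          ext f
          simp only [mem_iInter, SetLike.mem_coe, h]
          rfl
        rw [this]
        exact isClosed_iInter fun q => isClosed_iInter fun _ =>
          isClosed_eq (ContinuousLinearMap.continuous _) continuous_const
      refine ⟨hc, hT1 M hc fun k x hx => ?_⟩
      by_cases hk : P (d k)
      · rw [innerSL_apply_apply, wq_in, tsum_congr (g := fun _ => 0), tsum_zero, zero_smul]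
        · exact M.zero_mem
        · intro s
          split_ifs with hs
          · rw [(h x).1 hx s (hP _ _ hs hk), mul_zero]
          · rfl
      · refine M.smul_mem _ ((h _).2 fun q hq => lp.single_apply_ne _ _ _ ?_)
        rintro rfl
        exact hk hq
    rcases hM with rfl | rfl | ⟨t, h | h⟩
    · exact ⟨isClosed_singleton, fun x hx => by rw [(Submodule.mem_bot ℂ).1 hx]; simp⟩
    · exact ⟨isClosed_univ, fun _ _ => trivial⟩
    · exact key _ (fun a b hab ha => ha.trans (by exact_mod_cast hab)) h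
    · exact key _ (fun a b hab ha => ha.trans (by exact_mod_cast hab.le)) h

end Pool.Agent.H.MP_acb846_an
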