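import Pool.Agent.H.MP_acb846_an.A
set_option autoImplicit false
namespace Pool.Agent.H.MP_acb846_an
open Set Filter Topology MeasureTheory

theorem chainH (S : Set ℝ) [CompactSpace S] (m b : S) (hm : ∀ x : S, m ≤ x) (hb : ∀ x : S, x ≤ b)
    (H : Type) [NormedAddCommGroup H] [InnerProductSpace ℂ H] [CompleteSpace H] (u : S → H)
    (hu : ∀ x y : S, inner ℂ (u x) (u y) = ((min (x : ℝ) y - m : ℝ) : ℂ))
    (hsp : ∀ g : H, (∀ x, inner ℂ (u x) g = 0) → g = 0) :
    ∃ A : H →L[ℂ] H,
      Nonempty (↥S ≃o {M : Submodule ℂ H // IsClosed (M : Set H) ∧ ∀ x ∈ M, A x ∈ M}) := by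
  haveI : Nonempty S := ⟨m⟩
  obtain ⟨d, hd⟩ := TopologicalSpace.exists_dense_seq S
  have hl : ∀ e y : S, inner ℂ (u b - u e) (u y) = (((y : ℝ) - min (e : ℝ) y : ℝ) : ℂ) := by
    intro e y
    rw [inner_sub_left, hu, hu, min_eq_right (show (y : ℝ) ≤ b from hb y)]
    push_cast
    ring
  have h0 : ∀ e y : S, y ≤ e → innerSL ℂ (u b - u e) (u y) = 0 := by
    intro e y h
    rw [innerSL_apply_apply, hl, min_eq_right (show (y : ℝ) ≤ e from h)]
    simp
  have h1 : ∀ e y : S, e < y → innerSL ℂ (u b - u e) (u y) ≠ 0 := by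
    intro e y h
    rw [innerSL_apply_apply, hl, min_eq_left (show (e : ℝ) ≤ y from h.le)]
    exact Complex.ofReal_ne_zero.2 (sub_pos.2 (show (e : ℝ) < y from h)).ne'
  have hcont : Continuous u := by
    have hn : ∀ x y : S, ‖u y - u x‖ = √|(y : ℝ) - x| := by
      intro x y
      rw [norm_eq_sqrt_re_inner (𝕜 := ℂ), inner_sub_left, inner_sub_right, inner_sub_right,
        hu, hu, hu, hu]
      congr 1
      simp only [min_self, map_sub, RCLike.re_to_complex, Complex.ofReal_re]
      rcases le_total (y : ℝ) x with h | h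
      · rw [min_eq_left h, min_eq_right h, abs_of_nonpos (by linarith)]; ring
      · rw [min_eq_left h, min_eq_right h, abs_of_nonneg (by linarith)]; ring
    refine continuous_iff_continuousAt.2 fun x => ?_
    rw [ContinuousAt, tendsto_iff_norm_sub_tendsto_zero]
    simp only [hn]
    have : Continuous fun y : S => √|(y : ℝ) - x| := by fun_prop
    simpa using this.tendsto x
  obtain ⟨T, hT1, hT2⟩ := exT (fun e => innerSL ℂ (u b - u e)) u h0 h1 d
  set N : S → Submodule ℂ H := fun x => (Submodule.span ℂ (u '' Iic x)).topologicalClosure with hN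
  have hNc : ∀ x, IsClosed (N x : Set H) := fun x => Submodule.isClosed_topologicalClosure _
  have hNu : ∀ x y, y ≤ x → u y ∈ N x := fun x y h =>
    Submodule.le_topologicalClosure _ (Submodule.subset_span ⟨y, h, rfl⟩)
  have hNle : ∀ x (M : Submodule ℂ H), IsClosed (M : Set H) → (∀ y, y ≤ x → u y ∈ M) → N x ≤ M := by
    intro x M hM h
    refine Submodule.topologicalClosure_minimal _ (Submodule.span_le.2 ?_) hM
    rintro _ ⟨y, hy, rfl⟩
    exact h y hy
  have hN0 : ∀ x e, x ≤ e → ∀ f ∈ N x, innerSL ℂ (u b - u e) f = 0 := by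
    intro x e h f hf
    exact hNle x (LinearMap.ker (innerSL ℂ (u b - u e)).toLinearMap)
      (ContinuousLinearMap.isClosed_ker _) (fun y hy => h0 e y (hy.trans h)) hf
  have hNi : ∀ x, ∀ f ∈ N x, T f ∈ N x := by
    intro x
    refine hT1 _ (hNc x) fun k f hf => ?_
    rcases le_total x (d k) with h | h
    · rw [hN0 x _ h f hf, zero_smul]
      exact Submodule.zero_mem _
    · exact Submodule.smul_mem _ _ (hNu _ _ h)
  refine ⟨T, ⟨StrictMono.orderIsoOfSurjective (fun x => ⟨N x, hNc x, hNi x⟩) ?_ ?_⟩⟩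
  · intro x y hxy
    refine Subtype.mk_lt_mk.2 (lt_of_le_of_ne
      (hNle x _ (hNc y) fun z hz => hNu _ _ (hz.trans hxy.le)) fun h => ?_)
    refine h1 x y hxy (hN0 x x le_rfl _ ?_)
    rw [h]
    exact hNu _ _ le_rfl
  · rintro ⟨M, hM, hMi⟩
    have hC : IsClosed {z : S | u z ∈ M} := hM.preimage hcont
    have hum : u m = 0 := by
      rw [← inner_self_eq_zero (𝕜 := ℂ), hu]
      simp
    obtain ⟨x, hx, hxm⟩ := hC.isCompact.exists_isGreatest
      ⟨m, show u m ∈ M by rw [hum]; exact M.zero_mem⟩
    have hle : N x ≤ M := by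
      refine hNle x M hM fun y hy => ?_
      rcases hy.lt_or_eq with h | rfl
      · have h2 := hd.open_subset_closure_inter (isOpen_Iio (a := x)) h
        refine hC.closure_subset_iff.2 ?_ h2
        rintro _ ⟨hz, k, rfl⟩
        exact hT2 M hM hMi _ hx k (h1 _ _ hz)
      · exact hx
    refine ⟨x, Subtype.ext (le_antisymm hle fun f hf => ?_)⟩
    haveI : CompleteSpace (N x) := (hNc x).completeSpace_coe
    obtain ⟨p, hp, g, hg, rfl⟩ := (N x).exists_add_mem_mem_orthogonal f
    have hgM : g ∈ M := by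
      have := M.sub_mem hf (hle hp)
      rwa [add_sub_cancel_left] at this
    have g1 : ∀ y, y ≤ x → inner ℂ (u y) g = 0 := fun y hy =>
      (Submodule.mem_orthogonal _ _).1 hg _ (hNu _ _ hy)
    have hC2 : IsClosed {z : S | inner ℂ (u z) g = inner ℂ (u b) g} :=
      isClosed_eq (hcont.inner continuous_const) continuous_const
    have g2 : ∀ y, x < y → inner ℂ (u y) g = inner ℂ (u b) g := by
      intro y hy
      have h2 := hd.open_subset_closure_inter (isOpen_Ioi (a := x)) hy
      refine hC2.closure_subset_iff.2 ?_ h2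
      rintro _ ⟨hz, k, rfl⟩
      by_contra h
      refine absurd (hxm (hT2 M hM hMi g hgM k ?_)) (not_le.2 hz)
      rw [innerSL_apply_apply, inner_sub_left]
      exact sub_ne_zero.2 fun h' => h h'.symm
    have hg0 : g = 0 := by
      by_cases hne : (Ioi x).Nonempty
      swap
      · exact hsp g fun y => g1 y (not_lt.1 fun h => hne ⟨y, h⟩)
      obtain ⟨z, hz, hzm⟩ := (isClosed_closure (s := Ioi x)).isCompact.exists_isLeast hne.closure
      have z1 : x ≤ z := (isClosed_Ici (a := x)).closure_subset_iff.2 Ioi_subset_Ici_self hz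
      have z2 : inner ℂ (u z) g = inner ℂ (u b) g := hC2.closure_subset_iff.2 g2 hz
      rcases z1.lt_or_eq with h | rfl
      swap
      · refine hsp g fun y => ?_
        rcases le_or_gt y x with h | h
        · exact g1 y h
        · rw [g2 y h, ← z2, g1 x le_rfl]
      have hzx : (((z : ℝ) - x : ℝ) : ℂ) ≠ 0 :=
        Complex.ofReal_ne_zero.2 (sub_pos.2 (show (x : ℝ) < z from h)).ne'
      set α : ℂ := inner ℂ (u b) g / (((z : ℝ) - x : ℝ) : ℂ) with hα
      have h3 : g - α • (u z - u x) = 0 := by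
        refine hsp _ fun y => ?_
        rw [inner_sub_right, inner_smul_right, inner_sub_right, hu, hu]
        rcases le_or_gt y x with h2 | h2
        · rw [g1 y h2, min_eq_left (show (y : ℝ) ≤ x from h2),
            min_eq_left (show (y : ℝ) ≤ z from h2.trans h.le)]
          simp
        · rw [g2 y h2, min_eq_right (show (x : ℝ) ≤ y from h2.le),
            min_eq_right (show (z : ℝ) ≤ y from hzm (subset_closure h2)), hα]
          rw [← Complex.ofReal_sub, sub_sub_sub_cancel_right, div_mul_cancel₀ _ hzx, sub_self]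
      rw [sub_eq_zero] at h3
      by_cases ha : α = 0
      · rw [h3, ha, zero_smul]
      · have h4 := M.smul_mem α⁻¹ hgM
        rw [h3, smul_smul, inv_mul_cancel₀ ha, one_smul] at h4
        have h5 := M.add_mem h4 hx
        rw [sub_add_cancel] at h5
        exact absurd (hxm h5) (not_le.2 h)
    rw [hg0, add_zero]
    exact hp

theorem chainS (S : Set ℝ) (hne : S.Nonempty) (hS : IsCompact S) :
    ∃ (H : Type) (_ : NormedAddCommGroup H) (_ : InnerProductSpace ℂ H) (_ : CompleteSpace H)
      (_ : TopologicalSpace.SeparableSpace H) (A : H →L[ℂ] H),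
      Nonempty (↥S ≃o {M : Submodule ℂ H // IsClosed (M : Set H) ∧ ∀ x ∈ M, A x ∈ M}) := by
  haveI : CompactSpace S := isCompact_iff_compactSpace.1 hS
  obtain ⟨m, hm, hm2⟩ := hS.exists_isLeast hne
  obtain ⟨b, hb, hb2⟩ := hS.exists_isGreatest hne
  haveI : Fact ((2 : ENNReal) ≠ ⊤) := ⟨by norm_num⟩
  set U : S → Lp ℂ 2 (volume : Measure ℝ) := fun x =>
    indicatorConstLp 2 (measurableSet_Ioc (a := m) (b := (x : ℝ))) (by simp) (1 : ℂ) with hU
  set K := (Submodule.span ℂ (range U)).topologicalClosure with hK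
  have hUK : ∀ x, U x ∈ K := fun x =>
    Submodule.le_topologicalClosure _ (Submodule.subset_span ⟨x, rfl⟩)
  haveI : CompleteSpace K := (Submodule.isClosed_topologicalClosure _).completeSpace_coe
  obtain ⟨A, hA⟩ := chainH S ⟨m, hm⟩ ⟨b, hb⟩ (fun x => hm2 x.2) (fun x => hb2 x.2) K
    (fun x => ⟨U x, hUK x⟩) (by
      intro x y
      rw [Submodule.coe_inner]
      simp only [hU]
      rw [L2.inner_indicatorConstLp_one_indicatorConstLp_one _ _ (by simp) (by simp), Ioc_inter_Ioc, Real.volume_real_Ioc,
        max_self, max_eq_left]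
      · rfl
      · exact sub_nonneg.2 (le_min (hm2 x.2) (hm2 y.2))) (by
      intro g hg
      have h1 : (g : Lp ℂ 2 (volume : Measure ℝ)) ∈ (Submodule.span ℂ (range U))ᗮ := by
        rw [Submodule.mem_orthogonal]
        intro v hv
        induction hv using Submodule.span_induction with
        | mem x hx =>
          obtain ⟨y, rfl⟩ := hx
          exact hg y
        | zero => simp
        | add x y _ _ hx hy => rw [inner_add_left, hx, hy, add_zero]
        | smul a x _ hx => rw [inner_smul_left, hx, mul_zero]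
      have h2 := g.2
      simp only [hK] at h2
      rw [← Submodule.orthogonal_orthogonal_eq_closure] at h2
      have h3 := (Submodule.mem_orthogonal _ _).1 h2 _ h1
      exact Subtype.ext (inner_self_eq_zero.1 h3))
  exact ⟨K, inferInstance, inferInstance, inferInstance, inferInstance, A, hA⟩

end Pool.Agent.H.MP_acb846_an
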